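import Pool.Agent.H34QC.MomK
import Pool.Agent.H34QM.Abs

set_option autoImplicit false

/-!
# Quadratic queries with loads in the quadratic sense: the abstract estimate

A query `q = (i, j)` of the class `cls e q = (j, e i)` is given by a Hermitian matrix `N q` with the
index set `P`; every index belongs to a cell. The form of `N q` is bounded by the squares of the
norms weighted with the loads `lam q`.
-/

namespace Pool.Agent.H34QC

open Finset Pool.Agent.R563.TP Pool.Agent.H34TP Pool.Agent.H34QM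
open scoped Classical ComplexConjugate

variable {k u S : ℕ} {P : Type} [Fintype P]

omit [Fintype P] in
theorem cc_symm {z w : ℂ} (h : w = conj z) (s s' : Bool) : cc z s s' = cc w s' s := by
  subst h
  unfold cc
  by_cases h1 : s = s'
  · subst h1
    simp
  · rw [if_neg h1, if_neg (Ne.symm h1)]
    cases s <;> cases s' <;> simp_all

/-- the bound of the forms -/
def FormB (lam : Fin S → ℝ) (cell : P → Fin S) (R : ℝ) (N : P → P → ℂ) : Prop :=
  ∀ φ ψ : P → ℂ, |(∑ p, ∑ p', conj (φ p) * N p p' * ψ p').re| ≤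
    R / 2 * (∑ p, lam (cell p) * ‖φ p‖ ^ 2 + ∑ p, lam (cell p) * ‖ψ p‖ ^ 2)

theorem FormB.scaled {lam : Fin S → ℝ} {cell : P → Fin S} {R : ℝ} {N : P → P → ℂ}
    (h : FormB lam cell R N) {b : ℝ} (hb : 0 < b) (φ ψ : P → ℂ) :
    |(∑ p, ∑ p', conj (φ p) * N p p' * ψ p').re| ≤
      R / 2 * (b ^ 2 * ∑ p, lam (cell p) * ‖φ p‖ ^ 2 + (b ^ 2)⁻¹ * ∑ p, lam (cell p) * ‖ψ p‖ ^ 2) := by
  have h1 := h (fun p => (b : ℂ) * φ p) (fun p => ((b⁻¹ : ℝ) : ℂ) * ψ p)
  have h2 : ∑ p, ∑ p', conj ((b : ℂ) * φ p) * N p p' * (((b⁻¹ : ℝ) : ℂ) * ψ p') =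
      ∑ p, ∑ p', conj (φ p) * N p p' * ψ p' := by
    refine sum_congr rfl fun p _ => sum_congr rfl fun p' _ => ?_
    rw [map_mul, Complex.conj_ofReal, Complex.ofReal_inv]
    have hb' : (b : ℂ) ≠ 0 := by exact_mod_cast hb.ne'
    field_simp
  rw [h2] at h1
  refine h1.trans (le_of_eq ?_)
  congr 1
  rw [mul_sum, mul_sum]
  congr 1
  · refine sum_congr rfl fun p _ => ?_
    rw [norm_mul, Complex.norm_real, Real.norm_eq_abs, mul_pow, sq_abs]
    ring
  · refine sum_congr rfl fun p _ => ?_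
    rw [norm_mul, Complex.norm_real, Real.norm_eq_abs, mul_pow, sq_abs, inv_pow]
    ring

/-- the complex vector of a real one -/
noncomputable def cv (f : P × Bool → ℝ) (p : P) : ℂ := ⟨f (p, false), f (p, true)⟩

omit [Fintype P] in
theorem pt_cv (f : P × Bool → ℝ) (p : P) (s : Bool) : pt (cv f p) s = f (p, s) := by
  unfold pt cv
  cases s <;> simp

theorem form_real (N : P → P → ℂ) (f g : P × Bool → ℝ) :
    ∑ x : P × Bool, ∑ y : P × Bool, f x * cc (N x.1 y.1) x.2 y.2 * g y =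
      (∑ p, ∑ p', conj (cv f p) * N p p' * cv g p').re := by
  rw [Complex.re_sum, Fintype.sum_prod_type]
  refine sum_congr rfl fun p _ => ?_
  rw [Complex.re_sum]
  have h3 : ∀ s : Bool, ∑ b : P × Bool, f (p, s) * cc (N p b.1) s b.2 * g b =
      ∑ p' : P, ∑ s' : Bool, f (p, s) * cc (N p p') s s' * g (p', s') := by
    intro s
    rw [Fintype.sum_prod_type]
  simp only [h3]
  rw [sum_comm]
  refine sum_congr rfl fun p' _ => ?_
  rw [← cc_form]
  refine sum_congr rfl fun s _ => sum_congr rfl fun s' _ => ?_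
  rw [pt_cv, pt_cv]

theorem sum_sq_cv (w : P → ℝ) (f : P × Bool → ℝ) :
    ∑ x : P × Bool, w x.1 * f x ^ 2 = ∑ p, w p * ‖cv f p‖ ^ 2 := by
  rw [Fintype.sum_prod_type]
  refine sum_congr rfl fun p _ => ?_
  rw [← pt_sq, mul_sum]
  refine sum_congr rfl fun s _ => ?_
  rw [pt_cv]

omit [Fintype P] in
theorem ent_symm {N : Fin k × Fin k → P → P → ℂ} (hN : ∀ q p p', N q p' p = conj (N q p p'))
    (e : Fin k → Fin u) (l : Fin k × Fin u) (x y : P × Bool) :
    entQ N e l x y = entQ N e l y x := by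
  unfold entQ
  refine sum_congr rfl fun q _ => ?_
  split_ifs
  · exact cc_symm (hN q _ _) _ _
  · rfl

theorem formK (N : Fin k × Fin k → P → P → ℂ) (e : Fin k → Fin u) (Φ : P → ℂ)
    (Y : Fin k × Fin u → Bool) :
    ∑ a : P × Bool, ∑ b : P × Bool, pt (Φ a.1) a.2 * (∑ l, sg (Y l) * entQ N e l a b) *
      pt (Φ b.1) b.2 = ∑ q, sg (Y (cls e q)) * qv (N q) Φ := by
  have h0 : ∀ a b : P × Bool, ∑ l, sg (Y l) * entQ N e l a b =
      ∑ q, sg (Y (cls e q)) * cc (N q a.1 b.1) a.2 b.2 := by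
    intro a b
    unfold entQ
    simp only [mul_sum]
    rw [sum_comm]
    refine sum_congr rfl fun q _ => ?_
    rw [Finset.sum_eq_single (cls e q)]
    · simp
    · intro l _ hl
      rw [if_neg (fun h => hl h.symm), mul_zero]
    · simp
  simp only [h0]
  have h2 : ∀ q, sg (Y (cls e q)) * qv (N q) Φ = ∑ a : P × Bool, ∑ b : P × Bool,
      pt (Φ a.1) a.2 * (sg (Y (cls e q)) * cc (N q a.1 b.1) a.2 b.2) * pt (Φ b.1) b.2 := by
    intro q
    have h3 := form_real (N q) (fun x => pt (Φ x.1) x.2) (fun x => pt (Φ x.1) x.2)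
    have h4 : cv (fun x : P × Bool => pt (Φ x.1) x.2) = Φ := by
      funext p
      unfold cv pt
      simp
    rw [h4] at h3
    unfold qv
    rw [← h3, mul_sum]
    refine sum_congr rfl fun a _ => ?_
    rw [mul_sum]
    exact sum_congr rfl fun b _ => by ring
  simp only [h2]
  rw [sum_comm (s := (univ : Finset (Fin k × Fin k)))]
  refine sum_congr rfl fun a _ => ?_
  rw [sum_comm (s := (univ : Finset (Fin k × Fin k)))]
  refine sum_congr rfl fun b _ => ?_
  rw [mul_sum, sum_mul]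

variable {cell : P → Fin S} {lam : Fin k × Fin k → Fin S → ℝ} {R : ℝ}

theorem class_form {N : Fin k × Fin k → P → P → ℂ} (hN : ∀ q, FormB (lam q) cell R (N q))
    (e : Fin k → Fin u) (l : Fin k × Fin u) {b : ℝ} (hb : 0 < b) (t g : P × Bool → ℝ) :
    ∑ x, t x * ∑ y, entQ N e l x y * g y ≤
      R / 2 * (b ^ 2 * ∑ x : P × Bool, ld lam e (cell x.1) l * t x ^ 2 +
        (b ^ 2)⁻¹ * ∑ x : P × Bool, ld lam e (cell x.1) l * g x ^ 2) := by
  have h1 : ∑ x, t x * ∑ y, entQ N e l x y * g y = ∑ q, if cls e q = l then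
      ∑ x : P × Bool, ∑ y : P × Bool, t x * cc (N q x.1 y.1) x.2 y.2 * g y else 0 := by
    have e1 : ∀ x : P × Bool, t x * ∑ y, entQ N e l x y * g y = ∑ q, if cls e q = l then
        ∑ y : P × Bool, t x * cc (N q x.1 y.1) x.2 y.2 * g y else 0 := by
      intro x
      unfold entQ
      simp only [sum_mul, mul_sum]
      rw [sum_comm]
      refine sum_congr rfl fun q _ => ?_
      split_ifs
      · exact sum_congr rfl fun y _ => by ring
      · simp
    simp only [e1]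
    rw [sum_comm]
    refine sum_congr rfl fun q _ => ?_
    split_ifs
    · rfl
    · simp
  have h2 : ∀ f : P × Bool → ℝ, ∑ x : P × Bool, ld lam e (cell x.1) l * f x ^ 2 =
      ∑ q, if cls e q = l then ∑ x : P × Bool, lam q (cell x.1) * f x ^ 2 else 0 := by
    intro f
    unfold ld
    simp only [sum_mul]
    rw [sum_comm]
    refine sum_congr rfl fun q _ => ?_
    split_ifs
    · rfl
    · simp
  rw [h1, h2, h2, mul_sum, mul_sum, ← sum_add_distrib, mul_sum]
  refine sum_le_sum fun q _ => ?_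
  split_ifs
  · rw [form_real]
    refine (le_abs_self _).trans ((hN q).scaled hb _ _ |>.trans (le_of_eq ?_))
    rw [sum_sq_cv (fun p => lam q (cell p)), sum_sq_cv (fun p => lam q (cell p))]
  · simp

theorem var_bound {N : Fin k × Fin k → P → P → ℂ} (hN : ∀ q, FormB (lam q) cell R (N q))
    (hR : 0 < R) (e : Fin k → Fin u) {l : P × Bool → ℝ} {θ : ℝ}
    (hθ : 0 < θ) (hl : ∀ x, 0 < l x) (hload : ∀ x α, ld lam e (cell x.1) α ≤ θ * l x)
    (htot : ∀ x, dg lam (cell x.1) ≤ l x) (g : P × Bool → ℝ) :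
    ∑ α, ∑ x, (∑ y, entQ N e α x y * g y) ^ 2 / l x ≤ (R ^ 2 * θ) * ∑ y, l y * g y ^ 2 := by
  have hone : ∀ α, ∑ x, (∑ y, entQ N e α x y * g y) ^ 2 / l x ≤
      R ^ 2 * θ * ∑ x : P × Bool, ld lam e (cell x.1) α * g x ^ 2 := by
    intro α
    set U : P × Bool → ℝ := fun x => ∑ y, entQ N e α x y * g y with hU
    set Z : ℝ := ∑ x, U x ^ 2 / l x with hZ
    set D : ℝ := ∑ x : P × Bool, ld lam e (cell x.1) α * g x ^ 2 with hD
    have hb : 0 < √(1 / (R * θ)) := Real.sqrt_pos.2 (by positivity)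
    have hb2 : √(1 / (R * θ)) ^ 2 = 1 / (R * θ) := Real.sq_sqrt (by positivity)
    have h1 := class_form hN e α hb (fun x => U x / l x) g
    rw [hb2] at h1
    have h2 : ∑ x, U x / l x * ∑ y, entQ N e α x y * g y = Z := by
      rw [hZ]
      refine sum_congr rfl fun x _ => ?_
      change U x / l x * U x = _
      ring
    rw [h2] at h1
    have h3 : ∑ x : P × Bool, ld lam e (cell x.1) α * (U x / l x) ^ 2 ≤ θ * Z := by
      rw [hZ, mul_sum]
      refine sum_le_sum fun x _ => ?_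
      have h4 : θ * l x * (U x / l x) ^ 2 = θ * (U x ^ 2 / l x) := by
        have := (hl x).ne'
        field_simp
      rw [← h4]
      exact mul_le_mul_of_nonneg_right (hload x α) (sq_nonneg _)
    have h5 : R / 2 * (1 / (R * θ) * ∑ x : P × Bool, ld lam e (cell x.1) α * (U x / l x) ^ 2) ≤
        Z / 2 := by
      have h6 : R / 2 * (1 / (R * θ) * (θ * Z)) = Z / 2 := by
        field_simp
      rw [← h6]
      gcongr
    have h7 : R / 2 * ((1 / (R * θ))⁻¹ * D) = R ^ 2 * θ * D / 2 := by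
      rw [one_div, inv_inv]
      ring
    rw [mul_add, h7] at h1
    linarith
  refine (sum_le_sum fun α _ => hone α).trans ?_
  rw [← mul_sum, sum_comm]
  refine mul_le_mul_of_nonneg_left (sum_le_sum fun x _ => ?_) (by positivity)
  rw [← sum_mul, sum_ld]
  exact mul_le_mul_of_nonneg_right (htot x) (sq_nonneg _)

/-- the norm -/
theorem normK {κ : Type} [Fintype κ] {lam : Fin k × Fin k → Fin S → ℝ} (Φ : κ → P → ℂ)
    {V K : ℝ} (hT : 0 ≤ K / S)
    (hV : 0 ≤ V)
    (hΦ : ∀ a, ∑ t, ∑ p, (if cell p = a then ‖Φ t p‖ ^ 2 else 0) ≤ V)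
    (h0 : ∀ q a, 0 ≤ lam q a) (hs : ∑ a, dg lam a ≤ K) (hST : S * (K / S) ≤ K) :
    ∑ t, ∑ x : P × Bool, (dg lam (cell x.1) + K / S) * pt (Φ t x.1) x.2 ^ 2 ≤ 2 * V * K := by
  have e1 : ∀ t, ∑ a : P × Bool, (dg lam (cell a.1) + K / S) * pt (Φ t a.1) a.2 ^ 2 =
      ∑ a : Fin S, (dg lam a + K / S) * ∑ p, (if cell p = a then ‖Φ t p‖ ^ 2 else 0) := by
    intro t
    rw [Fintype.sum_prod_type]
    have e2 : ∀ p : P, ∑ s : Bool, (dg lam (cell p) + K / S) * pt (Φ t p) s ^ 2 =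
        (dg lam (cell p) + K / S) * ‖Φ t p‖ ^ 2 := by
      intro p
      rw [← mul_sum, pt_sq]
    simp only [e2, mul_sum]
    rw [sum_comm]
    refine sum_congr rfl fun p _ => ?_
    rw [Finset.sum_eq_single (cell p)]
    · simp
    · intro a _ ha
      rw [if_neg (Ne.symm ha), mul_zero]
    · simp
  simp only [e1]
  rw [sum_comm]
  calc ∑ a : Fin S, ∑ t, (dg lam a + K / S) * ∑ p, (if cell p = a then ‖Φ t p‖ ^ 2 else 0)
      ≤ ∑ a : Fin S, (dg lam a + K / S) * V := by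
        refine sum_le_sum fun a _ => ?_
        rw [← mul_sum]
        exact mul_le_mul_of_nonneg_left (hΦ a) (add_nonneg (dg_nonneg h0 a) hT)
    _ = (∑ a, dg lam a + S * (K / S)) * V := by
        rw [← sum_mul, sum_add_distrib]
        simp
    _ ≤ (K + K) * V := by
        refine mul_le_mul_of_nonneg_right (add_le_add hs hST) hV
    _ = _ := by ring

/-- **The abstract estimate.** -/
theorem coreK {r m : ℕ} {κ : (Fin k × Fin u → Bool) → Type} [∀ Y, Fintype (κ Y)]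
    {N : Fin k × Fin k → P → P → ℂ} {V δ : ℝ}
    (h0 : ∀ q a, 0 ≤ lam q a) (hs : ∀ q, ∑ a, lam q a ≤ 1)
    (hH : ∀ q p p', N q p' p = conj (N q p p')) (hN : ∀ q, FormB (lam q) cell R (N q))
    (hR : 1 ≤ R) (hV : 1 ≤ V) (hk : 1 ≤ k) (hu : 1 ≤ u) (hS : 1 ≤ S) (hr : 1 ≤ r)
    (hkS : k ^ 2 ≤ u * S) (hcard : 2 * Fintype.card P ≤ 2 ^ (2 ^ r)) (hδ : 0 < δ)
    (e : Fin k → Fin u) (hg : GoodL lam m e)
    (Φ : ∀ Y : Fin k × Fin u → Bool, κ Y → P → ℂ)
    (hΦ : ∀ Y a, ∑ t, ∑ p, (if cell p = a then ‖Φ Y t p‖ ^ 2 else 0) ≤ V)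
    (h : δ * (k : ℝ) ^ 2 * 2 ^ (k * u) ≤
      ∑ Y, ∑ q, sg (Y (cls e q)) * ∑ t, qv (N q) (Φ Y t)) :
    δ ^ 2 * (k : ℝ) ^ 2 ≤ 32 * R ^ 2 * V ^ 2 * (2 + m) * 2 ^ r * S := by
  have hk0 : (0 : ℝ) < k := by exact_mod_cast hk
  have hu0 : (0 : ℝ) < u := by exact_mod_cast hu
  have hS0 : (0 : ℝ) < S := by exact_mod_cast hS
  have hR0 : 0 < R := by linarith
  have hV0 : 0 < V := by linarith
  have hkS' : (k : ℝ) ^ 2 ≤ u * S := by exact_mod_cast hkS
  set K : ℝ := (k : ℝ) ^ 2 with hK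
  have hKpos : 0 < K := by positivity
  have hm0 : (0 : ℝ) ≤ m := Nat.cast_nonneg m
  set θ : ℝ := (2 + m) * S / K with hθ
  have hθ0 : 0 < θ := by positivity
  set l : P × Bool → ℝ := fun x => dg lam (cell x.1) + K / S with hl
  have hKS : 0 < K / S := by positivity
  have hlpos : ∀ x, 0 < l x := fun x => by
    have := dg_nonneg h0 (cell x.1)
    simp only [hl]; linarith
  have hd : ∑ a, dg lam a ≤ K := sum_dg hs
  have hST : (S : ℝ) * (K / S) ≤ K := by
    rw [mul_div_cancel₀ _ hS0.ne']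
  have hM : 0 < 2 * V * K := by positivity
  -- the vectors
  have hvec : ∀ Y : Fin k × Fin u → Bool, ∃ g : P × Bool → ℝ,
      ∑ x, l x * g x ^ 2 ≤ 2 * V * K ∧
      (∑ q, sg (Y (cls e q)) * ∑ t, qv (N q) (Φ Y t)) ≤
        ∑ x, ∑ y, g x * (∑ α, sg (Y α) * entQ N e α x y) * g y := by
    intro Y
    refine exists_vec (fun x y => ∑ α, sg (Y α) * entQ N e α x y) l hlpos
      (fun t x => pt (Φ Y t x.1) x.2) hM (normK (Φ Y) hKS.le hV0.le (hΦ Y) h0 hd hST) ?_
    simp only [formK]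
    rw [sum_comm]
    simp only [mul_sum]
    exact le_rfl
  choose g hg1' hg2' using hvec
  have hload : ∀ (x : P × Bool) (α : Fin k × Fin u), ld lam e (cell x.1) α ≤ θ * l x := by
    intro x α
    refine (hg _ α).trans ?_
    set d : ℝ := dg lam (cell x.1) with hdd
    have hd0 : 0 ≤ d := dg_nonneg h0 _
    have h6 : 1 / (u : ℝ) ≤ S / K := by
      rw [div_le_div_iff₀ hu0 hKpos]
      linarith
    have h7 : 2 * d / u ≤ 2 * (S / K) * d := by
      have : 2 * d / u = 2 * (1 / u) * d := by ring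
      rw [this]
      gcongr
    have h8 : (m : ℝ) = m * (S / K) * (K / S) := by field_simp
    have h9 : θ = (2 + m) * (S / K) := by rw [hθ]; ring
    simp only [hl, h9]
    have h10 : 0 ≤ (S / K : ℝ) := by positivity
    have h11 : 0 ≤ m * (S / K) * d := by positivity
    have h12 : 0 ≤ 2 * (S / K) * (K / S) := by positivity
    nlinarith
  have hmom := momK (X := P × Bool) (ι := Fin k × Fin u) (entQ N e) l (v := R ^ 2 * θ)
    (M := 2 * V * K) (δ := δ / (2 * V)) (r := r) g (fun α x y => ent_symm hH e α x y) hlpos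
    (by positivity) (by positivity) hM hr
    (fun g => var_bound hN hR0 e hθ0 hlpos hload
      (fun x => by simp only [hl]; linarith) g)
    (by
      rw [Fintype.card_prod, Fintype.card_bool]
      omega)
    hg1'
    (by
      have hc : Fintype.card (Fin k × Fin u) = k * u := by simp
      rw [hc]
      have h9 : δ / (2 * V) * (2 * V * K) * 2 ^ (k * u) = δ * K * 2 ^ (k * u) := by
        field_simp
      rw [h9]
      refine h.trans (le_trans (sum_le_sum fun Y _ => hg2' Y) (le_of_eq ?_))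
      refine Finset.sum_congr ?_ fun _ _ => rfl
      ext
      simp)
  have h10 : δ ^ 2 / (4 * V ^ 2) ≤ 8 * (R ^ 2 * θ) * 2 ^ r := by
    calc δ ^ 2 / (4 * V ^ 2) = (δ / (2 * V)) ^ 2 := by rw [div_pow, mul_pow]; norm_num
      _ ≤ _ := hmom
  rw [div_le_iff₀ (by positivity)] at h10
  have h11 : θ * K = (2 + m) * S := by rw [hθ]; field_simp
  calc δ ^ 2 * K ≤ (8 * (R ^ 2 * θ) * 2 ^ r * (4 * V ^ 2)) * K :=
        mul_le_mul_of_nonneg_right h10 hKpos.le
    _ = 32 * R ^ 2 * V ^ 2 * 2 ^ r * (θ * K) := by ring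
    _ = _ := by rw [h11]; ring

/-- a trivial bound -/
theorem trivK {κ : Type} [Fintype κ] {N : P → P → ℂ} {V : ℝ} {lam : Fin S → ℝ}
    (h0 : ∀ a, 0 ≤ lam a) (hs : ∑ a, lam a ≤ 1) (hN : FormB lam cell R N)
    (hR : 0 ≤ R) (hV : 0 ≤ V) (Φ : κ → P → ℂ)
    (hΦ : ∀ a, ∑ t, ∑ p, (if cell p = a then ‖Φ t p‖ ^ 2 else 0) ≤ V) :
    |∑ t, qv N (Φ t)| ≤ R * V := by
  have e1 : ∀ t, ∑ p, lam (cell p) * ‖Φ t p‖ ^ 2 =
      ∑ a : Fin S, lam a * ∑ p, (if cell p = a then ‖Φ t p‖ ^ 2 else 0) := by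
    intro t
    simp only [mul_sum]
    rw [sum_comm]
    refine sum_congr rfl fun p _ => ?_
    rw [Finset.sum_eq_single (cell p)]
    · simp
    · intro a _ ha
      rw [if_neg (Ne.symm ha), mul_zero]
    · simp
  have h3 : ∀ t, |qv N (Φ t)| ≤ R * ∑ p, lam (cell p) * ‖Φ t p‖ ^ 2 := by
    intro t
    refine (hN (Φ t) (Φ t)).trans (le_of_eq ?_)
    ring
  refine (abs_sum_le_sum_abs _ _).trans ((sum_le_sum fun t _ => h3 t).trans ?_)
  rw [← mul_sum]
  refine mul_le_mul_of_nonneg_left ?_ hR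
  simp only [e1]
  rw [sum_comm]
  calc ∑ a : Fin S, ∑ t, lam a * ∑ p, (if cell p = a then ‖Φ t p‖ ^ 2 else 0)
      ≤ ∑ a : Fin S, lam a * V := by
        refine sum_le_sum fun a _ => ?_
        rw [← mul_sum]
        exact mul_le_mul_of_nonneg_left (hΦ a) (h0 a)
    _ = V * ∑ a, lam a := by
        rw [mul_sum]
        exact sum_congr rfl fun a _ => by ring
    _ ≤ V * 1 := mul_le_mul_of_nonneg_left hs hV
    _ = _ := mul_one _

end Pool.Agent.H34QC
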