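import Pool.Agent.R563.TP.Mom3

set_option autoImplicit false

/-!
# The matrix Khintchine inequality (traces of even powers)
-/

namespace Pool.Agent.H34QC

open Finset Matrix Pool.Agent.R563.TP
open scoped Classical

section Fr

variable {X : Type} [Fintype X]

/-- the square of the Frobenius norm -/
noncomputable def fr (M : Matrix X X ℝ) : ℝ := ∑ x, ∑ y, M x y ^ 2

theorem fr_nonneg (M : Matrix X X ℝ) : 0 ≤ fr M :=
  sum_nonneg fun _ _ => sum_nonneg fun _ _ => sq_nonneg _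

theorem trace_T (M N : Matrix X X ℝ) : (Mᵀ * N).trace = ∑ x, ∑ y, M x y * N x y := by
  unfold Matrix.trace
  simp only [Matrix.diag_apply, Matrix.mul_apply, Matrix.transpose_apply]
  exact sum_comm

theorem trace_fr (M : Matrix X X ℝ) : (Mᵀ * M).trace = fr M := by
  rw [trace_T]
  unfold fr
  exact sum_congr rfl fun x _ => sum_congr rfl fun y _ => (sq _).symm

theorem trace_le (M N : Matrix X X ℝ) : (Mᵀ * N).trace ≤ (fr M + fr N) / 2 := by
  rw [trace_T]
  unfold fr
  rw [← sum_add_distrib, sum_div]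
  refine sum_le_sum fun x _ => ?_
  rw [← sum_add_distrib, sum_div]
  refine sum_le_sum fun y _ => ?_
  have := two_mul_le_add_sq (M x y) (N x y)
  linarith

variable {A B C : Matrix X X ℝ}

theorem tr4 (hA : Aᵀ = A) (hB : Bᵀ = B) (hC : Cᵀ = C) (a a' b b' : ℕ) :
    (C * A ^ (a + a') * C * B ^ (b' + b)).trace =
      ((A ^ a * C * B ^ b)ᵀ * (A ^ a' * C * B ^ b')).trace := by
  rw [Matrix.transpose_mul, Matrix.transpose_mul, Matrix.transpose_pow, Matrix.transpose_pow, hA,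
    hB, hC, pow_add, pow_add]
  have h1 : C * (A ^ a * A ^ a') * C * (B ^ b' * B ^ b) =
      (C * (A ^ a * A ^ a') * C * B ^ b') * B ^ b := by simp only [Matrix.mul_assoc]
  rw [h1, Matrix.trace_mul_comm]
  simp only [Matrix.mul_assoc]

theorem tr4_eq (hA : Aᵀ = A) (hB : Bᵀ = B) (hC : Cᵀ = C) (a b : ℕ) :
    (C * A ^ (a + a) * C * B ^ (b + b)).trace = fr (A ^ a * C * B ^ b) := by
  rw [tr4 hA hB hC, trace_fr]

theorem tr4_le (hA : Aᵀ = A) (hB : Bᵀ = B) (hC : Cᵀ = C) (a a' b b' : ℕ) :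
    (C * A ^ (a + a') * C * B ^ (b' + b)).trace ≤
      (fr (A ^ a * C * B ^ b) + fr (A ^ a' * C * B ^ b')) / 2 := by
  rw [tr4 hA hB hC]
  exact trace_le _ _

/-- a convex sequence attains its maximum at an end -/
theorem conv_max {s : ℕ} (g : ℕ → ℝ) (h : ∀ a, 1 ≤ a → a + 1 ≤ s → 2 * g a ≤ g (a - 1) + g (a + 1)) :
    ∀ a, a ≤ s → g a ≤ max (g 0) (g s) := by
  by_contra hcon
  push Not at hcon
  obtain ⟨a0, ha0, hlt0⟩ := hcon
  obtain ⟨a1, ha1, hmax⟩ := Finset.exists_max_image (range (s + 1)) g ⟨0, by simp⟩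
  rw [mem_range] at ha1
  have hex : ∃ a, a ≤ s ∧ g a = g a1 := ⟨a1, by omega, rfl⟩
  obtain ⟨hf1, hf2⟩ := Nat.find_spec hex
  set a := Nat.find hex with ha
  have hbig : max (g 0) (g s) < g a := by
    rw [hf2]
    exact lt_of_lt_of_le hlt0 (hmax a0 (by rw [mem_range]; omega))
  have h0 : a ≠ 0 := by
    intro h0
    rw [h0] at hbig
    exact absurd (le_max_left (g 0) (g s)) (not_le.2 hbig)
  have hs : a ≠ s := by
    intro hs
    rw [hs] at hbig
    exact absurd (le_max_right (g 0) (g s)) (not_le.2 hbig)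
  have h1 := h a (by omega) (by omega)
  have h2 : g (a + 1) ≤ g a := by
    rw [hf2]
    exact hmax (a + 1) (by rw [mem_range]; omega)
  have h3 : g (a - 1) ≤ g a := by
    rw [hf2]
    exact hmax (a - 1) (by rw [mem_range]; omega)
  have h4 : g (a - 1) = g a := by linarith
  exact Nat.find_min hex (show a - 1 < a by omega) ⟨by omega, h4.trans hf2⟩

/-- the ends dominate -/
theorem ends (hA : Aᵀ = A) (hB : Bᵀ = B) (hC : Cᵀ = C) (s a : ℕ) (ha : a ≤ s) :
    fr (A ^ a * C * B ^ (s - a)) ≤ fr (A ^ s * C) + fr (C * B ^ s) := by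
  have h := conv_max (s := s) (fun a => fr (A ^ a * C * B ^ (s - a))) (by
    intro a h1 h2
    have e1 : (C * A ^ (a + a) * C * B ^ ((s - a) + (s - a))).trace =
        fr (A ^ a * C * B ^ (s - a)) := tr4_eq hA hB hC a (s - a)
    have e2 := tr4_le hA hB hC (a - 1) (a + 1) (s - (a - 1)) (s - (a + 1))
    have e3 : a - 1 + (a + 1) = a + a := by omega
    have e4 : s - (a + 1) + (s - (a - 1)) = (s - a) + (s - a) := by omega
    rw [e3, e4, e1] at e2
    linarith) a ha
  simp only [pow_zero, Matrix.one_mul, Nat.sub_zero, Nat.sub_self, Matrix.mul_one] at h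
  refine h.trans (max_le ?_ ?_)
  · linarith [fr_nonneg (A ^ s * C)]
  · linarith [fr_nonneg (C * B ^ s)]

theorem mixed (hA : Aᵀ = A) (hB : Bᵀ = B) (hC : Cᵀ = C) (s k : ℕ) (hk : k ≤ 2 * s) :
    (C * A ^ k * C * B ^ (2 * s - k)).trace ≤ fr (A ^ s * C) + fr (C * B ^ s) := by
  rcases Nat.even_or_odd' k with ⟨a, rfl | rfl⟩
  · have e1 := tr4_eq hA hB hC a (s - a)
    have e2 : 2 * s - 2 * a = (s - a) + (s - a) := by omega
    rw [e2, two_mul, e1]
    exact ends hA hB hC s a (by omega)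
  · have e1 := tr4_le hA hB hC a (a + 1) (s - a) (s - (a + 1))
    have e2 : a + (a + 1) = 2 * a + 1 := by ring
    have e3 : s - (a + 1) + (s - a) = 2 * s - (2 * a + 1) := by omega
    rw [e2, e3] at e1
    have e4 := ends hA hB hC s a (by omega)
    have e5 := ends hA hB hC s (a + 1) (by omega)
    linarith

/-- the telescoping sum -/
theorem tele (A B : Matrix X X ℝ) (n : ℕ) :
    A ^ n - B ^ n = ∑ k ∈ range n, A ^ k * (A - B) * B ^ (n - 1 - k) := by
  induction n with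
  | zero => simp
  | succ n ih =>
    rw [sum_range_succ]
    have h1 : ∀ k ∈ range n, A ^ k * (A - B) * B ^ (n + 1 - 1 - k) =
        (A ^ k * (A - B) * B ^ (n - 1 - k)) * B := by
      intro k hk
      rw [mem_range] at hk
      have h2 : n + 1 - 1 - k = (n - 1 - k) + 1 := by omega
      rw [h2, pow_succ]
      simp only [Matrix.mul_assoc]
    rw [sum_congr rfl h1, ← Finset.sum_mul, ← ih]
    have h3 : n + 1 - 1 - n = 0 := by omega
    rw [h3, pow_zero, Matrix.mul_one, pow_succ, pow_succ]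
    noncomm_ring

end Fr

section Khintchine

variable {X ι : Type} [Fintype X] [Fintype ι]

/-- the random matrix -/
noncomputable def RM (C : ι → Matrix X X ℝ) (Y : ι → Bool) : Matrix X X ℝ := ∑ α, sg (Y α) • C α

theorem RM_T {C : ι → Matrix X X ℝ} (hC : ∀ α, (C α)ᵀ = C α) (Y : ι → Bool) : (RM C Y)ᵀ = RM C Y := by
  unfold RM
  rw [Matrix.transpose_sum]
  refine sum_congr rfl fun α _ => ?_
  rw [Matrix.transpose_smul, hC]

/-- the coordinate `α` is flipped -/
noncomputable def flip (α : ι) (Y : ι → Bool) : ι → Bool := Function.update Y α (!Y α)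

theorem flip_flip (α : ι) (Y : ι → Bool) : flip α (flip α Y) = Y := by
  unfold flip
  simp

theorem sg_not' (b : Bool) : sg (!b) = - sg b := by
  cases b <;> simp [sg]

theorem sg_mul_self (b : Bool) : sg b * sg b = 1 := by
  cases b <;> norm_num [sg]

theorem sum_flip (α : ι) (F : (ι → Bool) → ℝ) : ∑ Y, F (flip α Y) = ∑ Y, F Y := by
  refine Finset.sum_nbij' (flip α) (flip α) ?_ ?_ ?_ ?_ ?_ <;> intro Y _
  · exact mem_univ _
  · exact mem_univ _
  · exact flip_flip α Y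
  · exact flip_flip α Y
  · rfl

theorem RM_flip (C : ι → Matrix X X ℝ) (Y : ι → Bool) (α : ι) :
    RM C Y - RM C (flip α Y) = (2 * sg (Y α)) • C α := by
  unfold RM
  rw [← sum_sub_distrib, Finset.sum_eq_single α]
  · unfold flip
    rw [Function.update_self, sg_not', neg_smul, sub_neg_eq_add, ← add_smul]
    congr 1
    ring
  · intro β _ hβ
    unfold flip
    rw [Function.update_of_ne hβ, sub_self]
  · simp

theorem one_class {C : ι → Matrix X X ℝ} (hC : ∀ α, (C α)ᵀ = C α) (s : ℕ) (α : ι) :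
    ∑ Y : ι → Bool, sg (Y α) * (C α * RM C Y ^ (2 * s + 1)).trace ≤
      2 * (2 * s + 1) * ∑ Y : ι → Bool, fr (C α * RM C Y ^ s) := by
  have h1 : ∑ Y : ι → Bool, sg (Y α) * (C α * RM C Y ^ (2 * s + 1)).trace =
      -∑ Y : ι → Bool, sg (Y α) * (C α * RM C (flip α Y) ^ (2 * s + 1)).trace := by
    rw [← sum_flip α, ← sum_neg_distrib]
    refine sum_congr rfl fun Y _ => ?_
    have : flip α Y α = !Y α := by unfold flip; simp
    rw [this, sg_not']
    ring
  have h2 : ∀ Y : ι → Bool, sg (Y α) * ((C α * RM C Y ^ (2 * s + 1)).trace -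
      (C α * RM C (flip α Y) ^ (2 * s + 1)).trace) =
      2 * ∑ k ∈ range (2 * s + 1), (C α * RM C Y ^ k * C α * RM C (flip α Y) ^ (2 * s - k)).trace := by
    intro Y
    rw [← Matrix.trace_sub, ← Matrix.mul_sub, tele, RM_flip, Matrix.mul_sum, Matrix.trace_sum,
      mul_sum, mul_sum]
    refine sum_congr rfl fun k _ => ?_
    have e1 : 2 * s + 1 - 1 - k = 2 * s - k := by omega
    rw [e1, Matrix.mul_smul, Matrix.smul_mul, Matrix.mul_smul, Matrix.trace_smul, smul_eq_mul,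
      ← mul_assoc, ← mul_assoc, mul_comm (sg (Y α)) 2, mul_assoc 2, sg_mul_self, mul_one]
    simp only [Matrix.mul_assoc]
  have h3 : ∀ Y : ι → Bool, ∑ k ∈ range (2 * s + 1),
      (C α * RM C Y ^ k * C α * RM C (flip α Y) ^ (2 * s - k)).trace ≤
      (2 * s + 1) * (fr (C α * RM C Y ^ s) + fr (C α * RM C (flip α Y) ^ s)) := by
    intro Y
    have e1 : fr (RM C Y ^ s * C α) = fr (C α * RM C Y ^ s) := by
      rw [← trace_fr, ← trace_fr, Matrix.transpose_mul, Matrix.transpose_mul,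
        Matrix.transpose_pow, RM_T hC, hC]
      rw [Matrix.trace_mul_comm]
    calc ∑ k ∈ range (2 * s + 1),
          (C α * RM C Y ^ k * C α * RM C (flip α Y) ^ (2 * s - k)).trace ≤
        ∑ _k ∈ range (2 * s + 1), (fr (C α * RM C Y ^ s) + fr (C α * RM C (flip α Y) ^ s)) := by
          refine sum_le_sum fun k hk => ?_
          rw [mem_range] at hk
          rw [← e1]
          exact mixed (RM_T hC Y) (RM_T hC _) (hC α) s k (by omega)
      _ = _ := by
          rw [sum_const, card_range, nsmul_eq_mul]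
          push_cast
          ring
  have h4 : ∑ Y : ι → Bool, fr (C α * RM C (flip α Y) ^ s) = ∑ Y : ι → Bool, fr (C α * RM C Y ^ s) :=
    sum_flip α fun Y => fr (C α * RM C Y ^ s)
  have h5 : 2 * ∑ Y : ι → Bool, sg (Y α) * (C α * RM C Y ^ (2 * s + 1)).trace =
      ∑ Y : ι → Bool, sg (Y α) * ((C α * RM C Y ^ (2 * s + 1)).trace -
      (C α * RM C (flip α Y) ^ (2 * s + 1)).trace) := by
    simp only [mul_sub, sum_sub_distrib]
    linarith
  have h6 : ∑ Y : ι → Bool, sg (Y α) * ((C α * RM C Y ^ (2 * s + 1)).trace -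
      (C α * RM C (flip α Y) ^ (2 * s + 1)).trace) ≤
      ∑ Y : ι → Bool, 2 * ((2 * s + 1) * (fr (C α * RM C Y ^ s) + fr (C α * RM C (flip α Y) ^ s))) := by
    refine sum_le_sum fun Y _ => ?_
    rw [h2]
    linarith [h3 Y]
  have h7 : ∑ Y : ι → Bool, 2 * ((2 * (s : ℝ) + 1) * (fr (C α * RM C Y ^ s) +
      fr (C α * RM C (flip α Y) ^ s))) =
      2 * ((2 * s + 1) * (2 * ∑ Y : ι → Bool, fr (C α * RM C Y ^ s))) := by
    rw [← mul_sum, ← mul_sum, sum_add_distrib, h4]
    ring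
  rw [h7] at h6
  linarith

/-- the recursion -/
theorem moment_step {C : ι → Matrix X X ℝ} (hC : ∀ α, (C α)ᵀ = C α) {v : ℝ}
    (hv : ∀ f : X → ℝ, ∑ α, ∑ x, (∑ y, C α x y * f y) ^ 2 ≤ v * ∑ y, f y ^ 2) (s : ℕ) :
    ∑ Y : ι → Bool, (RM C Y ^ (2 * (s + 1))).trace ≤
      2 * (2 * s + 1) * v * ∑ Y : ι → Bool, (RM C Y ^ (2 * s)).trace := by
  have h1 : ∀ Y : ι → Bool, (RM C Y ^ (2 * (s + 1))).trace =
      ∑ α, sg (Y α) * (C α * RM C Y ^ (2 * s + 1)).trace := by
    intro Y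
    have e1 : 2 * (s + 1) = (2 * s + 1) + 1 := by ring
    rw [e1, pow_succ' (RM C Y) (2 * s + 1)]
    conv_lhs => rw [RM]
    rw [Matrix.sum_mul, Matrix.trace_sum]
    refine sum_congr rfl fun α _ => ?_
    rw [Matrix.smul_mul, Matrix.trace_smul, smul_eq_mul]
    rfl
  have h2 : ∀ Y : ι → Bool, (RM C Y ^ (2 * s)).trace = fr (RM C Y ^ s) := by
    intro Y
    rw [← trace_fr, Matrix.transpose_pow, RM_T hC, two_mul, pow_add]
  have h3 : ∀ Y : ι → Bool, ∑ α, fr (C α * RM C Y ^ s) ≤ v * fr (RM C Y ^ s) := by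
    intro Y
    have e1 : ∑ α, fr (C α * RM C Y ^ s) =
        ∑ z, ∑ α, ∑ x, (∑ y, C α x y * (RM C Y ^ s) y z) ^ 2 := by
      have e2 : ∀ α, fr (C α * RM C Y ^ s) =
          ∑ z, ∑ x, (∑ y, C α x y * (RM C Y ^ s) y z) ^ 2 := by
        intro α
        unfold fr
        simp only [Matrix.mul_apply]
        exact sum_comm
      simp only [e2]
      exact sum_comm
    rw [e1]
    refine (sum_le_sum fun z _ => hv fun y => (RM C Y ^ s) y z).trans (le_of_eq ?_)
    rw [← mul_sum]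
    unfold fr
    rw [sum_comm]
  simp only [h1, h2]
  rw [sum_comm]
  refine (sum_le_sum fun α _ => one_class hC s α).trans ?_
  rw [← mul_sum, sum_comm]
  have h4 : ∑ Y : ι → Bool, ∑ α, fr (C α * RM C Y ^ s) ≤ ∑ Y : ι → Bool, v * fr (RM C Y ^ s) :=
    sum_le_sum fun Y _ => h3 Y
  rw [← mul_sum] at h4
  calc 2 * (2 * (s : ℝ) + 1) * ∑ Y : ι → Bool, ∑ α, fr (C α * RM C Y ^ s) ≤
      2 * (2 * (s : ℝ) + 1) * (v * ∑ Y : ι → Bool, fr (RM C Y ^ s)) := by gcongr
    _ = _ := by ring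

theorem moment {C : ι → Matrix X X ℝ} (hC : ∀ α, (C α)ᵀ = C α) {v : ℝ} (hv0 : 0 ≤ v)
    (hv : ∀ f : X → ℝ, ∑ α, ∑ x, (∑ y, C α x y * f y) ^ 2 ≤ v * ∑ y, f y ^ 2) (n s : ℕ)
    (hs : s ≤ n) :
    ∑ Y : ι → Bool, (RM C Y ^ (2 * s)).trace ≤
      (4 * n * v) ^ s * (2 ^ (Fintype.card ι) * Fintype.card X) := by
  induction s with
  | zero =>
    simp [Matrix.trace_one]
  | succ s ih =>
    have h1 := moment_step hC hv s
    have h2 := ih (by omega)
    have h3 : (0 : ℝ) ≤ 2 * (2 * s + 1) * v := by positivity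
    have h4 : 2 * (2 * (s : ℝ) + 1) * v ≤ 4 * n * v := by
      have : (s : ℝ) + 1 ≤ n := by exact_mod_cast hs
      nlinarith
    calc ∑ Y : ι → Bool, (RM C Y ^ (2 * (s + 1))).trace ≤ _ := h1
      _ ≤ 2 * (2 * s + 1) * v * ((4 * n * v) ^ s * (2 ^ (Fintype.card ι) * Fintype.card X)) := by
          gcongr
      _ ≤ 4 * n * v * ((4 * n * v) ^ s * (2 ^ (Fintype.card ι) * Fintype.card X)) := by
          gcongr
      _ = _ := by ring

end Khintchine

end Pool.Agent.H34QC
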