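import Mathlib

set_option autoImplicit false

/-!
# A quantum memory and queries with one coherent quantum probe
-/

namespace Pool.Agent.H34QC

open Finset Matrix
open scoped Classical ComplexConjugate ComplexOrder Kronecker

/-- A query algorithm with one coherent probe to a memory of `S` cells with `W` levels each. The
algorithm has an address register with the basis states `0, …, S - 1` and a workspace. It prepares
the register and the workspace in the state `start`; the probe applies the unitary operator `U c` to
the cell `c` and the workspace if the address is `c` (in superposition over all `c`); then the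
register and the workspace are measured, and the answer is positive if the effect `F` occurs. -/
structure CoherentProbe (S W : ℕ) where
  /-- the dimension of the workspace -/
  dim : ℕ
  /-- the state of the address register and the workspace before the probe -/
  start : Fin S × Fin dim → ℂ
  /-- it is a unit vector -/
  unit : ∑ x, ‖start x‖ ^ 2 = 1
  /-- the operator on the cell and the workspace, for each address -/
  U : Fin S → Matrix (Fin W × Fin dim) (Fin W × Fin dim) ℂ
  /-- it is unitary -/
  unitary : ∀ c, (U c)ᴴ * U c = 1
  /-- the effect on the address register and the workspace after the probe -/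
  F : Matrix (Fin S × Fin dim) (Fin S × Fin dim) ℂ
  /-- `0 ≤ F ≤ 1` -/
  effect : F.PosSemidef ∧ (1 - F).PosSemidef

/-- The probe as an operator from the states of the memory to the states of the memory, the address
register and the workspace: the state `y` of the memory goes to the state `x` of the memory with the
address `c` and the state `α` of the workspace with the amplitude
`∑ β, U c (x c, α) (y c, β) * start (c, β)` if `x` and `y` agree outside the cell `c`. -/
noncomputable def CoherentProbe.probe {S W : ℕ} (Q : CoherentProbe S W) :
    Matrix ((Fin S → Fin W) × (Fin S × Fin Q.dim)) (Fin S → Fin W) ℂ :=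
  fun s y => if ∀ d, d ≠ s.2.1 → y d = s.1 d then
    ∑ β, Q.U s.2.1 (s.1 s.2.1, s.2.2) (y s.2.1, β) * Q.start (s.2.1, β) else 0

/-- The probability of the positive answer if the memory is in the state `ρ`. -/
noncomputable def CoherentProbe.prob {S W : ℕ} (Q : CoherentProbe S W)
    (ρ : Matrix (Fin S → Fin W) (Fin S → Fin W) ℂ) : ℝ :=
  (((1 : Matrix (Fin S → Fin W) (Fin S → Fin W) ℂ) ⊗ₖ Q.F) * (Q.probe * ρ * Q.probeᴴ)).trace.re

/-- A data structure for two arrays of `n` integers: the memory is a quantum state (density matrix)
of `S` cells with `W` levels each, which depends in any way on the arrays; a query `z` makes one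
coherent probe. -/
structure CoherentDS (n S W : ℕ) where
  /-- the state of the memory -/
  memory : (Fin n → ℕ) → (Fin n → ℕ) → Matrix (Fin S → Fin W) (Fin S → Fin W) ℂ
  /-- it is a density matrix -/
  state : ∀ A₁ A₂, (memory A₁ A₂).PosSemidef ∧ (memory A₁ A₂).trace = 1
  /-- the algorithm for the query `z` -/
  query : ℕ → CoherentProbe S W

/-- The probability of the right answer to the query `z`. -/
noncomputable def CoherentDS.right {n S W : ℕ} (D : CoherentDS n S W) (A₁ A₂ : Fin n → ℕ) (z : ℕ) :
    ℝ :=
  if ∃ i j, A₁ i + A₂ j = z then (D.query z).prob (D.memory A₁ A₂)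
  else 1 - (D.query z).prob (D.memory A₁ A₂)

/-- For all arrays of `n` integers from `{0, …, n ^ 3}` and all `z`, the random data structure `D`
(with probabilities `p`) decides whether `z` is the sum of an element of the first array and an
element of the second array, correctly with probability at least `1 / 2 + δ`. -/
def CSolves {n S W : ℕ} {Ω : Type} [Fintype Ω] (p : Ω → ℝ) (D : Ω → CoherentDS n S W)
    (δ : ℝ) : Prop :=
  (∀ ω, 0 ≤ p ω) ∧ ∑ ω, p ω = 1 ∧
    ∀ A₁ A₂ : Fin n → ℕ, (∀ i, A₁ i ≤ n ^ 3) → (∀ i, A₂ i ≤ n ^ 3) → ∀ z : ℕ,
      1 / 2 + δ ≤ ∑ ω, p ω * (D ω).right A₁ A₂ z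

end Pool.Agent.H34QC
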