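import Pool.Agent.H34QC.Khin

set_option autoImplicit false

/-!
# The maximum of random quadratic forms
-/

namespace Pool.Agent.H34QC

open Finset Matrix Pool.Agent.R563.TP Pool.Agent.R563.TP.Mom
open scoped Classical

theorem momK {X ι : Type} [Fintype X] [Fintype ι] (C : ι → X → X → ℝ) (l : X → ℝ) {v M δ : ℝ}
    {r : ℕ} (f : (ι → Bool) → X → ℝ) (hsym : ∀ α x y, C α x y = C α y x) (hl : ∀ x, 0 < l x)
    (hv0 : 0 ≤ v) (hδ : 0 < δ) (hM : 0 < M) (hr : 1 ≤ r)
    (hv : ∀ g : X → ℝ, ∑ α, ∑ x, (∑ y, C α x y * g y) ^ 2 / l x ≤ v * ∑ y, l y * g y ^ 2)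
    (hX : Fintype.card X ≤ 2 ^ (2 ^ r)) (hf : ∀ Y, ∑ x, l x * f Y x ^ 2 ≤ M)
    (hQ : δ * M * 2 ^ (Fintype.card ι) ≤
      ∑ Y, ∑ x, ∑ y, f Y x * (∑ α, sg (Y α) * C α x y) * f Y y) :
    δ ^ 2 ≤ 8 * v * 2 ^ r := by
  obtain ⟨r', rfl⟩ : ∃ r', r = r' + 1 := ⟨r - 1, by omega⟩
  set h : ℕ := 2 ^ r' with hh
  have hh1 : 1 ≤ h := Nat.one_le_two_pow
  have hn : 2 ^ (r' + 1) = 2 * h := by rw [hh]; ring
  set w : X → ℝ := fun x => √(l x) with hw
  have hw0 : ∀ x, 0 < w x := fun x => Real.sqrt_pos.2 (hl x)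
  have hw2 : ∀ x, w x ^ 2 = l x := fun x => Real.sq_sqrt (hl x).le
  set B : ι → Matrix X X ℝ := fun α => Matrix.of fun x y => C α x y / (w x * w y) with hB
  have hBT : ∀ α, (B α)ᵀ = B α := by
    intro α
    ext x y
    simp only [hB, Matrix.transpose_apply, Matrix.of_apply]
    rw [hsym, mul_comm (w y)]
  have hBv : ∀ g : X → ℝ, ∑ α, ∑ x, (∑ y, B α x y * g y) ^ 2 ≤ v * ∑ y, g y ^ 2 := by
    intro g
    have h1 := hv fun y => g y / w y
    have h2 : ∀ y, l y * (g y / w y) ^ 2 = g y ^ 2 := by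
      intro y
      rw [div_pow, hw2]
      have := (hl y).ne'
      field_simp
    have h3 : ∀ α x, (∑ y, C α x y * (g y / w y)) ^ 2 / l x = (∑ y, B α x y * g y) ^ 2 := by
      intro α x
      have h4 : ∑ y, B α x y * g y = (∑ y, C α x y * (g y / w y)) / w x := by
        rw [sum_div]
        refine sum_congr rfl fun y _ => ?_
        simp only [hB, Matrix.of_apply]
        have := (hw0 x).ne'
        have := (hw0 y).ne'
        field_simp
      rw [h4, div_pow, hw2]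
    simp only [h2, h3] at h1
    exact h1
  set F : (ι → Bool) → X → ℝ := fun Y x => w x * f Y x with hF
  have hTsym : ∀ Y x y, (1 : ℝ) * RM B Y x y = 1 * RM B Y y x := by
    intro Y x y
    have := congrFun (congrFun (RM_T hBT Y) y) x
    rw [Matrix.transpose_apply] at this
    rw [this]
  have hq : ∀ Y, q (RM B Y) (fun _ => 1) (F Y) 1 =
      ∑ x, ∑ y, f Y x * (∑ α, sg (Y α) * C α x y) * f Y y := by
    intro Y
    unfold q
    refine sum_congr rfl fun x _ => ?_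
    rw [pow_one]
    have : (RM B Y).mulVec (F Y) x = ∑ y, RM B Y x y * F Y y := rfl
    rw [this, mul_sum]
    refine sum_congr rfl fun y _ => ?_
    have h5 : RM B Y x y = (∑ α, sg (Y α) * C α x y) / (w x * w y) := by
      unfold RM
      simp only [Matrix.sum_apply, Matrix.smul_apply, hB, Matrix.of_apply, smul_eq_mul]
      rw [sum_div]
      exact sum_congr rfl fun α _ => (mul_div_assoc _ _ _).symm
    rw [h5]
    simp only [hF]
    have := (hw0 x).ne'
    have := (hw0 y).ne'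
    field_simp
  have hFM : ∀ Y, ∑ x, (1 : ℝ) * F Y x ^ 2 ≤ M := by
    intro Y
    refine le_trans (le_of_eq ?_) (hf Y)
    refine sum_congr rfl fun x _ => ?_
    simp only [hF]
    rw [one_mul, mul_pow, hw2]
  have hcard : Fintype.card (ι → Bool) = 2 ^ (Fintype.card ι) := by simp
  set c : ℝ := 2 ^ (Fintype.card ι) with hc
  have hc0 : 0 < c := by positivity
  have hsum : ∑ _Y : ι → Bool, c⁻¹ = 1 := by
    rw [sum_const, card_univ, hcard, nsmul_eq_mul]
    push_cast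
    rw [← hc]
    exact mul_inv_cancel₀ hc0.ne'
  have p1 := Real.pow_arith_mean_le_arith_mean_pow_of_even (univ : Finset (ι → Bool))
    (fun _ => c⁻¹) (fun Y => q (RM B Y) (fun _ => 1) (F Y) 1) (fun _ _ => by positivity) hsum
    (n := 2 * h) (even_two_mul h)
  have p2 : δ * M ≤ ∑ Y : ι → Bool, c⁻¹ * q (RM B Y) (fun _ => 1) (F Y) 1 := by
    rw [← mul_sum]
    simp only [hq]
    rw [le_inv_mul_iff₀ hc0]
    calc c * (δ * M) = δ * M * c := by ring
      _ ≤ _ := hQ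
  have p3 : (δ * M) ^ (2 * h) ≤
      ∑ Y : ι → Bool, c⁻¹ * (q (RM B Y) (fun _ => 1) (F Y) 1) ^ (2 * h) :=
    (pow_le_pow_left₀ (by positivity) p2 _).trans p1
  have p4 : ∀ Y, (q (RM B Y) (fun _ => 1) (F Y) 1) ^ (2 * h) ≤
      M ^ (2 * h) * (RM B Y ^ (2 * h)).trace := by
    intro Y
    have := q_pow (l := fun _ => 1) (hTsym Y) (fun _ => one_pos) (F Y) hM (hFM Y) r'
    rwa [hn] at this
  have p5 : (δ * M) ^ (2 * h) ≤ c⁻¹ * (M ^ (2 * h) * ∑ Y, (RM B Y ^ (2 * h)).trace) := by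
    refine p3.trans ?_
    rw [mul_sum, mul_sum]
    exact sum_le_sum fun Y _ => mul_le_mul_of_nonneg_left (p4 Y) (by positivity)
  have p6 := moment hBT hv0 hBv h h le_rfl
  have p7 : (δ * M) ^ (2 * h) ≤ c⁻¹ * (M ^ (2 * h) *
      ((4 * h * v) ^ h * (c * Fintype.card X))) := by
    refine p5.trans ?_
    gcongr
  have p8 : c⁻¹ * (M ^ (2 * h) * ((4 * h * v) ^ h * (c * Fintype.card X))) =
      M ^ (2 * h) * ((Fintype.card X : ℝ) * (4 * h * v) ^ h) := by
    field_simp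
  rw [p8, mul_pow, mul_comm (δ ^ (2 * h))] at p7
  have p9 : δ ^ (2 * h) ≤ (Fintype.card X : ℝ) * (4 * h * v) ^ h :=
    le_of_mul_le_mul_left p7 (by positivity)
  have p10 : (Fintype.card X : ℝ) ≤ 2 ^ (2 * h) := by
    rw [hn] at hX
    exact_mod_cast hX
  have p11 : (δ ^ 2) ^ h ≤ (16 * h * v) ^ h := by
    calc (δ ^ 2) ^ h = δ ^ (2 * h) := by rw [pow_mul]
      _ ≤ 2 ^ (2 * h) * (4 * h * v) ^ h :=
          p9.trans (mul_le_mul_of_nonneg_right p10 (by positivity))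
      _ = _ := by
          rw [pow_mul, ← mul_pow]
          congr 1
          ring
  have p12 : δ ^ 2 ≤ 16 * h * v :=
    (pow_le_pow_iff_left₀ (by positivity) (by positivity) (by omega)).1 p11
  calc δ ^ 2 ≤ _ := p12
    _ = 8 * v * (2 * h : ℕ) := by push_cast; ring
    _ = 8 * v * 2 ^ (r' + 1) := by rw [← hn]; push_cast; ring

end Pool.Agent.H34QC
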