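import Pool.Agent.H34QC.Core
import Pool.Agent.H34QC.Model
import Pool.Agent.H34QM.Val

set_option autoImplicit false

/-!
# The value of a coherent query as a quadratic form
-/

namespace Pool.Agent.H34QC

open Finset Matrix Pool.Agent.H34QM
open scoped Classical ComplexConjugate ComplexOrder Kronecker

variable {S W : ℕ}

/-- the amplitudes of the probe -/
noncomputable def KK (Q : CoherentProbe S W) (c : Fin S) (i : Fin W) (α : Fin Q.dim) (j : Fin W) :
    ℂ := ∑ β, Q.U c (i, α) (j, β) * Q.start (c, β)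

/-- the load of the cell `c` -/
noncomputable def wt (Q : CoherentProbe S W) (c : Fin S) : ℝ := ∑ β, ‖Q.start (c, β)‖ ^ 2

theorem wt_nonneg (Q : CoherentProbe S W) (c : Fin S) : 0 ≤ wt Q c :=
  sum_nonneg fun _ _ => by positivity

theorem sum_wt (Q : CoherentProbe S W) : ∑ c, wt Q c = 1 := by
  rw [← Q.unit, Fintype.sum_prod_type]
  rfl

theorem dot_norm {X : Type} [Fintype X] (v : X → ℂ) :
    star v ⬝ᵥ v = ((∑ x, ‖v x‖ ^ 2 : ℝ) : ℂ) := by
  unfold dotProduct
  push_cast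
  refine sum_congr rfl fun x _ => ?_
  rw [Pi.star_apply, mul_comm]
  have := Complex.mul_conj (v x)
  rw [Complex.normSq_eq_norm_sq] at this
  push_cast at this
  exact this

theorem unitary_norm {X : Type} [Fintype X] [DecidableEq X] {U : Matrix X X ℂ} (hU : Uᴴ * U = 1)
    (v : X → ℂ) : ∑ x, ‖(U *ᵥ v) x‖ ^ 2 = ∑ x, ‖v x‖ ^ 2 := by
  have h1 := dot_norm (U *ᵥ v)
  rw [Matrix.star_mulVec, Matrix.dotProduct_mulVec, Matrix.vecMul_vecMul, hU, Matrix.vecMul_one,
    dot_norm] at h1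
  exact_mod_cast h1.symm

theorem KK_sum (Q : CoherentProbe S W) (c : Fin S) (j : Fin W) :
    ∑ i, ∑ α, ‖KK Q c i α j‖ ^ 2 = wt Q c := by
  set v : Fin W × Fin Q.dim → ℂ := fun x => if x.1 = j then Q.start (c, x.2) else 0 with hv
  have h1 : ∀ i α, KK Q c i α j = (Q.U c *ᵥ v) (i, α) := by
    intro i α
    unfold KK Matrix.mulVec dotProduct
    rw [Fintype.sum_prod_type, Finset.sum_eq_single j]
    · simp [hv]
    · intro j' _ hj'
      simp [hv, hj']
    · simp
  have h2 := unitary_norm (Q.unitary c) v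
  rw [Fintype.sum_prod_type, Fintype.sum_prod_type] at h2
  simp only [h1]
  rw [h2, Finset.sum_eq_single j]
  · unfold wt
    simp [hv]
  · intro j' _ hj'
    simp [hv, hj']
  · simp

/-- the vector of the register and the workspace -/
noncomputable def up (Q : CoherentProbe S W) (φ : PP S W → ℂ) (x : Fin S × Fin Q.dim) : ℂ :=
  ∑ i, ∑ j, KK Q x.1 i x.2 j * φ (x.1, i, j)

/-- the matrix of a query -/
noncomputable def NC (Q : CoherentProbe S W) (p p' : PP S W) : ℂ :=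
  ∑ α, ∑ α', conj (KK Q p.1 p.2.1 α p.2.2) * Q.F (p.1, α) (p'.1, α') * KK Q p'.1 p'.2.1 α' p'.2.2

theorem up_left (Q : CoherentProbe S W) (φ : PP S W → ℂ) (G : Fin S × Fin Q.dim → ℂ) :
    ∑ x, conj (up Q φ x) * G x =
      ∑ p : PP S W, conj (φ p) * ∑ α, conj (KK Q p.1 p.2.1 α p.2.2) * G (p.1, α) := by
  rw [Fintype.sum_prod_type, Fintype.sum_prod_type]
  refine sum_congr rfl fun c _ => ?_
  rw [Fintype.sum_prod_type]
  simp only [up, map_sum, sum_mul, mul_sum, map_mul]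
  rw [sum_comm]
  refine sum_congr rfl fun i _ => ?_
  rw [sum_comm]
  refine sum_congr rfl fun j _ => sum_congr rfl fun α _ => ?_
  ring

theorem up_right (Q : CoherentProbe S W) (ψ : PP S W → ℂ) (G : Fin S × Fin Q.dim → ℂ) :
    ∑ x, G x * up Q ψ x =
      ∑ p : PP S W, (∑ α, G (p.1, α) * KK Q p.1 p.2.1 α p.2.2) * ψ p := by
  rw [Fintype.sum_prod_type, Fintype.sum_prod_type]
  refine sum_congr rfl fun c _ => ?_
  rw [Fintype.sum_prod_type]
  simp only [up, sum_mul, mul_sum]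
  rw [sum_comm]
  refine sum_congr rfl fun i _ => ?_
  rw [sum_comm]
  refine sum_congr rfl fun j _ => sum_congr rfl fun α _ => ?_
  ring

theorem form_up (Q : CoherentProbe S W) (φ ψ : PP S W → ℂ) :
    ∑ p, ∑ p', conj (φ p) * NC Q p p' * ψ p' =
      ∑ x, ∑ x', conj (up Q φ x) * Q.F x x' * up Q ψ x' := by
  have h1 : ∀ x, ∑ x', conj (up Q φ x) * Q.F x x' * up Q ψ x' =
      conj (up Q φ x) * ∑ x', Q.F x x' * up Q ψ x' := by
    intro x
    rw [mul_sum]
    exact sum_congr rfl fun x' _ => mul_assoc _ _ _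
  simp only [h1]
  rw [up_left]
  refine sum_congr rfl fun p _ => ?_
  simp only [up_right, NC, mul_sum, sum_mul]
  rw [sum_comm]
  refine sum_congr rfl fun α _ => sum_congr rfl fun p' _ => sum_congr rfl fun α' _ => ?_
  ring

theorem norm_up (Q : CoherentProbe S W) (φ : PP S W → ℂ) :
    ∑ x, ‖up Q φ x‖ ^ 2 ≤ W * ∑ p : PP S W, wt Q p.1 * ‖φ p‖ ^ 2 := by
  rw [Fintype.sum_prod_type, Fintype.sum_prod_type, mul_sum]
  refine sum_le_sum fun c _ => ?_
  have h1 : ∀ α, ‖up Q φ (c, α)‖ ^ 2 ≤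
      (∑ t : Fin W × Fin W, ‖KK Q c t.1 α t.2‖ ^ 2) * ∑ t : Fin W × Fin W, ‖φ (c, t)‖ ^ 2 := by
    intro α
    have h2 : up Q φ (c, α) = ∑ t : Fin W × Fin W, KK Q c t.1 α t.2 * φ (c, t) := by
      rw [Fintype.sum_prod_type]
      rfl
    rw [h2]
    have h3 : ‖∑ t : Fin W × Fin W, KK Q c t.1 α t.2 * φ (c, t)‖ ≤
        ∑ t : Fin W × Fin W, ‖KK Q c t.1 α t.2‖ * ‖φ (c, t)‖ := by
      refine (norm_sum_le _ _).trans (le_of_eq ?_)
      exact sum_congr rfl fun t _ => norm_mul _ _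
    refine (pow_le_pow_left₀ (norm_nonneg _) h3 2).trans ?_
    exact sum_mul_sq_le_sq_mul_sq _ _ _
  refine (sum_le_sum fun α _ => h1 α).trans (le_of_eq ?_)
  rw [← sum_mul]
  have h4 : ∑ α, ∑ t : Fin W × Fin W, ‖KK Q c t.1 α t.2‖ ^ 2 = W * wt Q c := by
    have h5 : ∀ α, ∑ t : Fin W × Fin W, ‖KK Q c t.1 α t.2‖ ^ 2 = ∑ j, ∑ i, ‖KK Q c i α j‖ ^ 2 := by
      intro α
      rw [Fintype.sum_prod_type, sum_comm]
    simp only [h5]
    rw [sum_comm]
    have h6 : ∀ j, ∑ α, ∑ i, ‖KK Q c i α j‖ ^ 2 = wt Q c := by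
      intro j
      rw [sum_comm, KK_sum]
    simp only [h6]
    simp
  rw [h4, mul_assoc, mul_sum]

theorem NC_form (Q : CoherentProbe S W) :
    FormB (wt Q) (fun p : PP S W => p.1) (W : ℝ) (NC Q) := by
  intro φ ψ
  rw [form_up]
  refine (Complex.abs_re_le_norm _).trans ((quad_bound Q.effect.1 Q.effect.2 _ _).trans ?_)
  have h1 := norm_up Q φ
  have h2 := norm_up Q ψ
  linarith

theorem NC_symm (Q : CoherentProbe S W) (p p' : PP S W) : NC Q p' p = conj (NC Q p p') := by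
  have hF : ∀ x y, Q.F y x = conj (Q.F x y) := by
    intro x y
    have := congrFun (congrFun Q.effect.1.isHermitian y) x
    rw [Matrix.conjTranspose_apply] at this
    exact this.symm
  unfold NC
  simp only [map_sum, map_mul, Complex.conj_conj]
  rw [sum_comm]
  refine sum_congr rfl fun α _ => sum_congr rfl fun α' _ => ?_
  rw [hF]
  ring

theorem probe_vec (Q : CoherentProbe S W) (ψ : Conf S W → ℂ) (z : Conf S W)
    (x : Fin S × Fin Q.dim) : (Q.probe *ᵥ ψ) (z, x) = up Q (PhiQ ψ z) x := by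
  obtain ⟨c, α⟩ := x
  unfold Matrix.mulVec dotProduct
  have h1 : ∀ y : Conf S W, Q.probe (z, (c, α)) y * ψ y = if ∀ d, d ≠ c → y d = z d then
      KK Q c (z c) α (y c) * ψ y else 0 := by
    intro y
    unfold CoherentProbe.probe KK
    split_ifs
    · rfl
    · rw [zero_mul]
  simp only [h1]
  rw [sum_off1 c z (fun y => KK Q c (z c) α (y c) * ψ y)]
  unfold up
  symm
  rw [Finset.sum_eq_single (z c)]
  · refine sum_congr rfl fun j _ => ?_
    rw [Function.update_self]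
    unfold PhiQ
    rw [if_pos rfl]
  · intro i _ hi
    refine sum_eq_zero fun j _ => ?_
    unfold PhiQ
    rw [if_neg (fun h => hi (Eq.symm h)), mul_zero]
  · simp

theorem value_pureC (Q : CoherentProbe S W) (ψ : Conf S W → ℂ) :
    (((1 : Matrix (Conf S W) (Conf S W) ℂ) ⊗ₖ Q.F) *
      (Q.probe * Matrix.vecMulVec ψ (star ψ) * Q.probeᴴ)).trace =
      ∑ z, ∑ p, ∑ p', conj (PhiQ ψ z p) * NC Q p p' * PhiQ ψ z p' := by
  rw [Matrix.mul_vecMulVec, Matrix.vecMulVec_mul, Matrix.mul_vecMulVec, ← Matrix.star_mulVec,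
    Matrix.trace_vecMulVec]
  simp only [form_up]
  unfold dotProduct
  rw [Fintype.sum_prod_type]
  refine sum_congr rfl fun z _ => sum_congr rfl fun x _ => ?_
  have h1 : (((1 : Matrix (Conf S W) (Conf S W) ℂ) ⊗ₖ Q.F) *ᵥ (Q.probe *ᵥ ψ)) (z, x) =
      ∑ x', Q.F x x' * up Q (PhiQ ψ z) x' := by
    change ∑ s : Conf S W × (Fin S × Fin Q.dim), ((1 : Matrix (Conf S W) (Conf S W) ℂ) ⊗ₖ Q.F)
      (z, x) s * (Q.probe *ᵥ ψ) s = _
    rw [Fintype.sum_prod_type, Finset.sum_eq_single z]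
    · refine sum_congr rfl fun x' _ => ?_
      rw [Matrix.kroneckerMap_apply, Matrix.one_apply_eq, one_mul, probe_vec]
    · intro z' _ hz'
      refine sum_eq_zero fun x' _ => ?_
      rw [Matrix.kroneckerMap_apply, Matrix.one_apply_ne (Ne.symm hz'), zero_mul, zero_mul]
    · simp
  rw [h1, Pi.star_apply, probe_vec, mul_comm, mul_sum]
  exact sum_congr rfl fun x' _ => (mul_assoc _ _ _).symm

/-- **The value of a query.** -/
theorem valueC (ρ : Matrix (Conf S W) (Conf S W) ℂ) (hρ : ρ.PosSemidef) (ht : ρ.trace = 1) :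
    ∃ (m : ℕ) (ψ : Fin m → Conf S W → ℂ),
      (∀ Q : CoherentProbe S W, Q.prob ρ =
        ∑ t : Fin m × Conf S W, qv (NC Q) (PhiQ (ψ t.1) t.2)) ∧
      ∀ a : Fin S, ∑ t : Fin m × Conf S W, ∑ p : PP S W,
        (if p.1 = a then ‖PhiQ (ψ t.1) t.2 p‖ ^ 2 else 0) ≤ W := by
  obtain ⟨m, ψ, hψ⟩ := Matrix.posSemidef_iff_eq_sum_vecMulVec.1 hρ
  have hψ' : ∀ x y, ρ x y = ∑ s, ψ s x * conj (ψ s y) := by
    intro x y
    rw [hψ, Matrix.sum_apply]
    rfl
  refine ⟨m, ψ, ?_, ?_⟩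
  · intro Q
    unfold CoherentProbe.prob
    rw [hψ, Matrix.mul_sum, Matrix.sum_mul, Matrix.mul_sum, Matrix.trace_sum, Complex.re_sum,
      Fintype.sum_prod_type]
    refine sum_congr rfl fun s _ => ?_
    rw [value_pureC, Complex.re_sum]
    rfl
  · intro a
    rw [Fintype.sum_prod_type]
    simp only [norm_pure]
    rw [← mul_sum]
    have h2 : ∑ s, ∑ x, ‖ψ s x‖ ^ 2 = 1 := by
      have e1 : ρ.trace = ((∑ s, ∑ x, ‖ψ s x‖ ^ 2 : ℝ) : ℂ) := by
        unfold Matrix.trace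
        simp only [Matrix.diag_apply, hψ']
        rw [sum_comm]
        push_cast
        refine sum_congr rfl fun s _ => sum_congr rfl fun x _ => ?_
        have := Complex.mul_conj (ψ s x)
        rw [Complex.normSq_eq_norm_sq] at this
        push_cast at this
        exact this
      rw [ht] at e1
      exact_mod_cast e1.symm
    rw [h2, mul_one]

end Pool.Agent.H34QC
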